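import Mathlib
import Pool.Agent.MP_b3099b_gt.H24.Space

/-!
The example of `H24.Space` is normal Hausdorff when the family at the top point consists of
column-finite sets; the non-image statement holds for domain spaces in every universe.
-/

set_option autoImplicit false

universe u

namespace Pool.Agent.MP_b3099b_gt.H93

open Set Filter Topology Pool.Agent.MP_b3099b_gt.H24

/-- the splitting lemma, recording that both halves consist of column-finite sets -/
lemma exists_split_cf : ∃ X : Set (ℕ × ℕ), Pos X ∧ ∃ 𝒜 ℬ : Set (Set (ℕ × ℕ)),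
    (∀ D ∈ 𝒜, CF D) ∧ (∀ D ∈ ℬ, CF D) ∧ (∀ A ∈ 𝒜, ∀ B ∈ ℬ, (A ∩ B).Finite) ∧
    ∀ Z ⊆ X, Pos Z → (∃ A ∈ 𝒜, (A ∩ Z).Infinite) ∧ (∃ B ∈ ℬ, (B ∩ Z).Infinite) := by
  classical
  obtain ⟨M, hCF, hAD, hmax⟩ := exists_mad
  by_contra hcon
  -- one refinement step
  have step : ∀ (p : ℕ × ℕ) (X : Set (ℕ × ℕ)), Pos X →
      ∃ Z : Set (ℕ × ℕ), Z ⊆ X ∧ Pos Z ∧ ∃ b : Prop, ∀ D ∈ M, (D ∩ Z).Infinite → (p ∈ D ↔ b) := by
    intro p X hX
    by_contra h2
    apply hcon
    refine ⟨X, hX, {D ∈ M | p ∈ D}, {D ∈ M | p ∉ D}, fun D hD => hCF D hD.1,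
      fun D hD => hCF D hD.1, ?_, ?_⟩
    · rintro A ⟨hA, hpA⟩ B ⟨hB, hpB⟩
      refine hAD hA hB ?_
      rintro rfl
      exact hpB hpA
    · intro Z hZX hZ
      constructor
      · by_contra h3
        apply h2
        refine ⟨Z, hZX, hZ, False, ?_⟩
        intro D hD hinf
        simp only [iff_false]
        intro hp
        exact h3 ⟨D, ⟨hD, hp⟩, hinf⟩
      · by_contra h3
        apply h2
        refine ⟨Z, hZX, hZ, True, ?_⟩
        intro D hD hinf
        simp only [iff_true]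
        by_contra hp
        exact h3 ⟨D, ⟨hD, hp⟩, hinf⟩
  choose! nxt hsub hpos bb hbb using step
  obtain ⟨e, he⟩ : ∃ e : ℕ → ℕ × ℕ, Function.Surjective e := exists_surjective_nat (ℕ × ℕ)
  let X : ℕ → Set (ℕ × ℕ) := fun n => Nat.rec univ (fun i Y => nxt (e i) Y) n
  have hXs : ∀ n, X (n + 1) = nxt (e n) (X n) := fun n => rfl
  have hX0 : Pos (X 0) := by
    have : {j | (col (univ : Set (ℕ × ℕ)) j).Infinite} = univ := by
      ext j
      simp only [mem_ofPred_eq, mem_univ, iff_true]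
      have : col (univ : Set (ℕ × ℕ)) j = univ := by
        ext m; simp [col]
      rw [this]; exact infinite_univ
    show {j | (col (univ : Set (ℕ × ℕ)) j).Infinite}.Infinite
    rw [this]; exact infinite_univ
  have hXpos : ∀ n, Pos (X n) := by
    intro n
    induction n with
    | zero => exact hX0
    | succ n ih => rw [hXs]; exact hpos _ _ ih
  have hXanti : Antitone X := by
    refine antitone_nat_of_succ_le fun n => ?_
    rw [hXs]; exact hsub _ _ (hXpos n)
  -- choose columns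
  have hj : ∀ n, ∃ j, n ≤ j ∧ (col (X n) j).Infinite := by
    intro n
    obtain ⟨j, hj1, hj2⟩ := (hXpos n).exists_gt n
    exact ⟨j, hj2.le, hj1⟩
  choose jj hjj1 hjj2 using hj
  let W : Set (ℕ × ℕ) := {p | ∃ n, p.1 = jj n ∧ p ∈ X n}
  have hWpos : Pos W := by
    refine Set.infinite_of_forall_exists_gt fun a => ?_
    refine ⟨jj (a + 1), ?_, hjj1 (a + 1)⟩
    refine (hjj2 (a + 1)).mono ?_
    intro m hm
    exact ⟨a + 1, rfl, hm⟩
  have hWX : ∀ D ∈ M, (D ∩ W).Infinite → ∀ n, (D ∩ X n).Infinite := by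
    intro D hD hinf n hfin
    apply hinf
    have hrest : (D ∩ {p | p.1 ∈ jj '' (Iio n)}).Finite := by
      refine finite_of_CF (J := jj '' (Iio n)) ?_ ((finite_Iio n).image _) fun p hp => hp.2
      intro j
      exact (hCF D hD j).subset (col_mono inter_subset_left j)
    refine (hfin.union hrest).subset ?_
    rintro p ⟨hpD, i, hi1, hi2⟩
    by_cases hin : i < n
    · right
      exact ⟨hpD, i, hin, hi1.symm⟩
    · left
      exact ⟨hpD, hXanti (not_lt.mp hin) hi2⟩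
  have huniq : ∀ D ∈ M, (D ∩ W).Infinite → ∀ n, (e n ∈ D ↔ bb (e n) (X n)) := by
    intro D hD hinf n
    have := hWX D hD hinf (n + 1)
    rw [hXs] at this
    exact hbb _ _ (hXpos n) D hD this
  -- first member of the family meeting `W`
  obtain ⟨E, hEW, -, hEinf, hECF⟩ := exists_graph (D := ∅) hWpos (fun j => by simp [col])
  obtain ⟨D, hD, hDE⟩ := hmax E hEinf hECF
  have hDW : (D ∩ W).Infinite := hDE.mono (inter_subset_inter_right _ hEW)
  obtain ⟨E', hEW', hdisj, hEinf', hECF'⟩ := exists_graph (D := D) hWpos (hCF D hD)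
  obtain ⟨D', hD', hDE'⟩ := hmax E' hEinf' hECF'
  have hDW' : (D' ∩ W).Infinite := hDE'.mono (inter_subset_inter_right _ hEW')
  have hDD : D' = D := by
    ext p
    obtain ⟨n, rfl⟩ := he p
    rw [huniq D hD hDW n, huniq D' hD' hDW' n]
  subst hDD
  obtain ⟨p, hp1, hp2⟩ := hDE'.nonempty
  exact Set.disjoint_left.mp hdisj hp2 hp1

/-- every open neighbourhood in the example contains a clopen neighbourhood -/
lemma exists_clopen (X : Set (ℕ × ℕ)) (ℬ : Set (Set (ℕ × ℕ))) (hB : ∀ D ∈ ℬ, CF D)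
    (y : Pt) (U : Set Pt) (hU : IsOp X ℬ U) (hy : y ∈ U) :
    ∃ V : Set Pt, IsOp X ℬ V ∧ IsOp X ℬ Vᶜ ∧ y ∈ V ∧ V ⊆ U := by
  cases y with
  | low p =>
    refine ⟨{Pt.low p}, ⟨fun j hj => by simp at hj, fun h => by simp at h⟩, ?_, rfl, ?_⟩
    · have := topo_t1 X ℬ
      exact (@isClosed_singleton Pt (topo X ℬ) this (Pt.low p)).isOpen_compl
    · simpa using hy
  | mid j =>
    refine ⟨U ∩ ({Pt.mid j} ∪ Pt.low '' {p | p.1 = j}), ⟨fun i hi => ?_, fun h => ?_⟩,
      ⟨fun i hi => ?_, fun _ => ⟨?_, fun B hBB => ?_⟩⟩, ⟨hy, Or.inl rfl⟩, inter_subset_left⟩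
    · have hij : i = j := by
        rcases hi.2 with h | ⟨p, _, h⟩
        · simpa using h
        · simp at h
      subst hij
      refine (hU.1 i hy).subset ?_
      rintro m ⟨hm1, hm2⟩
      exact ⟨hm1, fun h => hm2 ⟨h, Or.inr ⟨(i, m), rfl, rfl⟩⟩⟩
    · rcases h.2 with h | ⟨p, _, h⟩
      · simp at h
      · simp at h
    · refine Set.finite_empty.subset ?_
      rintro m ⟨_, hm2⟩
      simp only [mem_compl_iff, not_not] at hm2
      rcases hm2.2 with h | ⟨p, hp, h⟩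
      · simp at h
      · have hp2 : p = (i, m) := by simpa using h
        subst hp2
        have hij : i = j := hp
        subst hij
        exact hi ⟨hy, Or.inl rfl⟩
    · refine (Set.finite_singleton j).subset ?_
      intro i hi
      simp only [mem_compl_iff, not_not, mem_ofPred_eq] at hi
      rcases hi.2 with h | ⟨p, _, h⟩
      · simpa using h
      · simp at h
    · refine finite_of_CF (J := {j}) ?_ (Set.finite_singleton j) ?_
      · intro i
        exact (hB B hBB i).subset (col_mono (fun p hp => hp.1) i)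
      · rintro p ⟨_, hp2⟩
        simp only [mem_compl_iff, not_not] at hp2
        rcases hp2.2 with h | ⟨q, hq, h⟩
        · simp at h
        · have hqp : q = p := by simpa using h
          subst hqp
          exact hq
  | inf =>
    refine ⟨U \ Pt.low '' {p | Pt.mid p.1 ∉ U}, ⟨fun i hi => ?_, fun _ => ⟨?_, fun B hBB => ?_⟩⟩,
      ⟨fun i hi => ?_, fun h => ?_⟩, ⟨hy, ?_⟩, sdiff_subset⟩
    · refine (hU.1 i hi.1).subset ?_
      rintro m ⟨hm1, hm2⟩
      refine ⟨hm1, fun h => hm2 ⟨h, ?_⟩⟩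
      rintro ⟨p, hp, h2⟩
      have hp2 : p = (i, m) := by simpa using h2
      subst hp2
      exact hp hi.1
    · refine ((hU.2 hy).1).subset ?_
      intro i hi h
      refine hi ⟨h, ?_⟩
      rintro ⟨p, _, h2⟩
      simp at h2
    · have h1 : {p | p ∈ B ∧ Pt.mid p.1 ∉ U}.Finite := by
        refine finite_of_CF (J := {j | Pt.mid j ∉ U}) ?_ (hU.2 hy).1 (fun p hp => hp.2)
        intro i
        exact (hB B hBB i).subset (col_mono (fun p hp => hp.1) i)
      refine (((hU.2 hy).2 B hBB).union h1).subset ?_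
      rintro p ⟨hp1, hp2⟩
      by_cases h : Pt.low p ∈ U
      · right
        refine ⟨hp1, fun h3 => hp2 ⟨h, ?_⟩⟩
        rintro ⟨q, hq, h2⟩
        have hqp : q = p := by simpa using h2
        subst hqp
        exact hq h3
      · left
        exact ⟨hp1, h⟩
    · refine Set.finite_empty.subset ?_
      rintro m ⟨_, hm2⟩
      simp only [mem_compl_iff, not_not] at hm2
      apply hm2.2
      refine ⟨(i, m), fun h => hi ⟨h, ?_⟩, rfl⟩
      rintro ⟨p, _, h2⟩
      simp at h2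
    · exfalso
      refine h ⟨hy, ?_⟩
      rintro ⟨p, _, h2⟩
      simp at h2
    · rintro ⟨p, _, h2⟩
      simp at h2

/-- the example is regular -/
lemma topo_regular (X : Set (ℕ × ℕ)) (ℬ : Set (Set (ℕ × ℕ))) (hB : ∀ D ∈ ℬ, CF D) :
    @RegularSpace Pt (topo X ℬ) := by
  let _ := topo X ℬ
  refine RegularSpace.of_exists_mem_nhds_isClosed_subset ?_
  intro y s hs
  obtain ⟨U, hUs, hU, hy⟩ := mem_nhds_iff.mp hs
  obtain ⟨V, hV1, hV2, hyV, hVU⟩ := exists_clopen X ℬ hB y U hU hy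
  have hV1' : IsOpen V := hV1
  have hV2' : IsOpen Vᶜ := hV2
  exact ⟨V, hV1'.mem_nhds hyV, isOpen_compl_iff.mp hV2', hVU.trans hUs⟩

/-- the example is normal and `T1` -/
lemma topo_t4 (X : Set (ℕ × ℕ)) (ℬ : Set (Set (ℕ × ℕ))) (hB : ∀ D ∈ ℬ, CF D) :
    @T4Space Pt (topo X ℬ) := by
  let _ := topo X ℬ
  have h1 : T1Space Pt := topo_t1 X ℬ
  have h2 : RegularSpace Pt := topo_regular X ℬ hB
  have h3 : NormalSpace Pt := NormalSpace.of_regularSpace_lindelofSpace
  exact {}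

/-- the example is not a closed image of a space with countable decreasing open point bases -/
lemma not_closed_image_univ (X : Set (ℕ × ℕ)) (hX : Pos X) (𝒜 ℬ : Set (Set (ℕ × ℕ)))
    (hCF : ∀ D ∈ 𝒜, CF D) (horth : ∀ A ∈ 𝒜, ∀ B ∈ ℬ, (A ∩ B).Finite)
    (hA : ∀ Z ⊆ X, Pos Z → ∃ A ∈ 𝒜, (A ∩ Z).Infinite)
    (W : Type u) [TopologicalSpace W]
    (hW : ∀ x : W, ∃ N : ℕ → Set W, Antitone N ∧ (∀ n, IsOpen (N n) ∧ x ∈ N n) ∧
      ∀ V, IsOpen V → x ∈ V → ∃ n, N n ⊆ V)
    (f : W → Pt) (hf : @Continuous W Pt _ (topo X ℬ) f)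
    (hcl : @IsClosedMap W Pt _ (topo X ℬ) f) (hsurj : Function.Surjective f) : False := by
  let _ := topo X ℬ
  have : T1Space Pt := topo_t1 X ℬ
  choose s hs using hsurj
  have : Nonempty W := ⟨s Pt.inf⟩
  -- lifts of the middle points
  have hmid : ∀ j, (col X j).Infinite →
      ∃ x ∈ closure ((fun m => s (Pt.low (j, m))) '' col X j), f x = Pt.mid j := by
    intro j hj
    have h1 : Pt.mid j ∈ closure (f '' ((fun m => s (Pt.low (j, m))) '' col X j)) := by
      rw [mem_closure_iff]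
      intro U hU hjU
      have hfin := (show IsOp X ℬ U from hU).1 j hjU
      obtain ⟨m, hm1, hm2⟩ := (hj.sdiff hfin).nonempty
      refine ⟨Pt.low (j, m), ?_, s (Pt.low (j, m)), ⟨m, hm1, rfl⟩, hs _⟩
      by_contra hc
      exact hm2 ⟨hm1, hc⟩
    exact hcl.closure_image_subset _ h1
  choose! xx hxx1 hxx2 using hmid
  -- lift of the top point
  have hinf : ∃ x ∈ closure (xx '' {j | (col X j).Infinite}), f x = Pt.inf := by
    have h1 : Pt.inf ∈ closure (f '' (xx '' {j | (col X j).Infinite})) := by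
      rw [mem_closure_iff]
      intro U hU hjU
      have hfin := ((show IsOp X ℬ U from hU).2 hjU).1
      obtain ⟨j, hj1, hj2⟩ := (Set.Infinite.sdiff hX hfin).nonempty
      refine ⟨Pt.mid j, ?_, xx j, ⟨j, hj1, rfl⟩, hxx2 j hj1⟩
      by_contra hc
      exact hj2 hc
    exact hcl.closure_image_subset _ h1
  obtain ⟨x, hx1, hx2⟩ := hinf
  obtain ⟨N, hNanti, hNop, hNbase⟩ := hW x
  have hcol : ∀ n, ∃ j, n ≤ j ∧ (col X j).Infinite ∧ xx j ∈ N n := by
    intro n
    have hop : IsOpen (N n ∩ f ⁻¹' (Pt.mid '' Iio n)ᶜ) :=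
      (hNop n).1.inter ((((finite_Iio n).image _).isClosed.isOpen_compl).preimage hf)
    have hxm : x ∈ N n ∩ f ⁻¹' (Pt.mid '' Iio n)ᶜ := by
      refine ⟨(hNop n).2, ?_⟩
      rw [mem_preimage, hx2]
      rintro ⟨i, _, hi⟩
      simp at hi
    obtain ⟨_, ⟨hy1, hy2⟩, j, hj, rfl⟩ := mem_closure_iff.mp hx1 _ hop hxm
    refine ⟨j, ?_, hj, hy1⟩
    by_contra hc
    apply hy2
    exact ⟨j, not_le.mp hc, (hxx2 j hj).symm⟩
  choose jj hjj1 hjj2 hjj3 using hcol
  have hM : ∀ n, {m | (jj n, m) ∈ X ∧ s (Pt.low (jj n, m)) ∈ N n}.Infinite := by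
    intro n hfin
    have hop : IsOpen (N n ∩ f ⁻¹' ((fun m => Pt.low (jj n, m)) ''
        {m | (jj n, m) ∈ X ∧ s (Pt.low (jj n, m)) ∈ N n})ᶜ) :=
      (hNop n).1.inter (((hfin.image _).isClosed.isOpen_compl).preimage hf)
    have hxm : xx (jj n) ∈ N n ∩ f ⁻¹' ((fun m => Pt.low (jj n, m)) ''
        {m | (jj n, m) ∈ X ∧ s (Pt.low (jj n, m)) ∈ N n})ᶜ := by
      refine ⟨hjj3 n, ?_⟩
      rw [mem_preimage, hxx2 _ (hjj2 n)]
      rintro ⟨i, _, hi⟩
      simp at hi
    obtain ⟨_, ⟨hy1, hy2⟩, m, hm, rfl⟩ := mem_closure_iff.mp (hxx1 _ (hjj2 n)) _ hop hxm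
    apply hy2
    exact ⟨m, ⟨hm, hy1⟩, (hs _).symm⟩
  let Z : Set (ℕ × ℕ) := {p | ∃ n, p.1 = jj n ∧ p ∈ X ∧ s (Pt.low p) ∈ N n}
  have hZX : Z ⊆ X := by
    rintro p ⟨n, _, h, _⟩
    exact h
  have hZpos : Pos Z := by
    refine Set.infinite_of_forall_exists_gt fun a => ?_
    refine ⟨jj (a + 1), ?_, hjj1 (a + 1)⟩
    refine (hM (a + 1)).mono ?_
    intro m hm
    exact ⟨a + 1, rfl, hm.1, hm.2⟩
  obtain ⟨A, hAA, hAinf⟩ := hA Z hZX hZpos
  have hop : IsOpen (Pt.low '' (A ∩ Z))ᶜ := by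
    show IsOp X ℬ _
    refine ⟨fun j _ => ?_, fun _ => ⟨?_, fun B hBB => ?_⟩⟩
    · refine (hCF A hAA j).subset ?_
      rintro m ⟨_, hm2⟩
      simp only [mem_compl_iff, not_not] at hm2
      obtain ⟨p, hp, hp2⟩ := hm2
      have : p = (j, m) := by simpa using hp2
      subst this
      exact hp.1
    · refine Set.finite_empty.subset ?_
      intro j hj
      simp only [mem_compl_iff, not_not, mem_ofPred_eq] at hj
      obtain ⟨p, _, hp2⟩ := hj
      simp at hp2
    · refine (horth A hAA B hBB).subset ?_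
      rintro q ⟨hq1, hq2⟩
      simp only [mem_compl_iff, not_not] at hq2
      obtain ⟨p, hp, hp2⟩ := hq2
      have : p = q := by simpa using hp2
      subst this
      exact ⟨hp.1, hq1⟩
  have hxin : x ∈ f ⁻¹' (Pt.low '' (A ∩ Z))ᶜ := by
    rw [mem_preimage, hx2]
    rintro ⟨i, _, hi⟩
    simp at hi
  obtain ⟨n, hn⟩ := hNbase _ (hop.preimage hf) hxin
  apply hAinf
  refine finite_of_CF (J := jj '' Iio n) ?_ ((finite_Iio n).image _) ?_
  · intro j
    exact (hCF A hAA j).subset (col_mono inter_subset_left j)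
  · rintro p ⟨hpA, i, hi1, hi2, hi3⟩
    by_cases hin : i < n
    · exact ⟨i, hin, hi1.symm⟩
    · exfalso
      have := hn (hNanti (not_lt.mp hin) hi3)
      rw [mem_preimage, hs] at this
      exact this ⟨p, ⟨hpA, i, hi1, hi2, hi3⟩, rfl⟩

end Pool.Agent.MP_b3099b_gt.H93
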